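import Pool.Agent.H17.L0.QR
import Pool.Agent.H88.L0.Asm

/-!
Finite generation of `L`-groups over rings in which 2 is invertible: it does not change under
homomorphisms whose kernel and cokernel consist of elements killed by powers of 2, in particular
under `L₀^ε(ℤ[π]) → L₀^ε(ℝ[π])`.
-/

set_option autoImplicit false

namespace Pool.Agent.H96.CX

open TensorProduct Pool.Agent.H17.LTh

universe u v

/-- Each element of the kernel and of the cokernel is killed by a power of 2. -/
def TwoIso {M : Type u} {N : Type v} [AddCommGroup M] [AddCommGroup N] (f : M →+ N) : Prop :=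
  (∀ x, f x = 0 → ∃ k : ℕ, (2 ^ k) • x = 0) ∧ ∀ y, ∃ (k : ℕ) (x : M), f x = (2 ^ k) • y

section

variable {M : Type u} {N : Type v} [AddCommGroup M] [AddCommGroup N]
  (R : Type) [CommRing R]

theorem tmul_pow (h2 : IsUnit (2 : R)) (k : ℕ) (r : R) :
    ∃ s : R, ∀ {P : Type v} [AddCommGroup P] (y : P), r ⊗ₜ[ℤ] y = s ⊗ₜ[ℤ] ((2 ^ k) • y) := by
  obtain ⟨t, ht⟩ := (h2.pow k).exists_left_inv
  refine ⟨r * t, fun {P} _ y => ?_⟩
  rw [TensorProduct.tmul_smul, TensorProduct.smul_tmul']
  congr 1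
  rw [nsmul_eq_mul]
  push_cast
  calc r = r * (t * 2 ^ k) := by rw [ht, mul_one]
    _ = 2 ^ k * (r * t) := by ring

theorem bijective_of_twoIso [Module.Flat ℤ R] (h2 : IsUnit (2 : R)) {f : M →+ N}
    (hf : TwoIso f) : Function.Bijective (f.toIntLinearMap.baseChange R) := by
  constructor
  · have h1 : Function.Exact (LinearMap.ker f.toIntLinearMap).subtype f.toIntLinearMap :=
      LinearMap.exact_subtype_ker_map _
    have h3 : Function.Exact ((LinearMap.ker f.toIntLinearMap).subtype.baseChange R)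
        (f.toIntLinearMap.baseChange R) := fun y => Module.Flat.lTensor_exact R h1 y
    have hz : ∀ z : R ⊗[ℤ] LinearMap.ker f.toIntLinearMap, z = 0 := by
      intro z
      induction z using TensorProduct.induction_on with
      | zero => rfl
      | tmul r y =>
        obtain ⟨k, hk⟩ := hf.1 y.1 y.2
        obtain ⟨s, hs⟩ := tmul_pow.{u} R h2 k r
        rw [hs y]
        have h4 : (2 ^ k) • y = 0 := Subtype.ext hk
        rw [h4, TensorProduct.tmul_zero]
      | add a b ha hb => rw [ha, hb, add_zero]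
    rw [injective_iff_map_eq_zero]
    intro x hx
    obtain ⟨z, rfl⟩ := (h3 x).1 hx
    rw [hz z, map_zero]
  · intro y
    induction y using TensorProduct.induction_on with
    | zero => exact ⟨0, map_zero _⟩
    | tmul r y =>
      obtain ⟨k, x, hx⟩ := hf.2 y
      obtain ⟨s, hs⟩ := tmul_pow.{v} R h2 k r
      refine ⟨s ⊗ₜ x, ?_⟩
      rw [hs y, ← hx]
      rfl
    | add a b ha hb =>
      obtain ⟨x, rfl⟩ := ha
      obtain ⟨y, rfl⟩ := hb
      exact ⟨x + y, map_add _ _ _⟩

theorem finite_iff [Module.Flat ℤ R] (h2 : IsUnit (2 : R)) {f : M →+ N} (hf : TwoIso f) :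
    Module.Finite R (R ⊗[ℤ] M) ↔ Module.Finite R (R ⊗[ℤ] N) :=
  Module.Finite.equiv_iff (LinearEquiv.ofBijective _ (bijective_of_twoIso R h2 hf))

end

theorem twoIso_co (π : Type u) [Group π] (w : π →* ℤˣ) (ε : ℤˣ) :
    TwoIso (L0.co (π := π) (w := w) (ε := ε) (Int.castRingHom ℝ)) := by
  have h := Pool.Agent.H88.L0.asm (π := π) (w := w) (ε := ε) (fun y => qr_surj y)
    (fun x h => qr_inj x h)
  refine ⟨fun x hx => ⟨6, ?_⟩, fun y => ?_⟩
  · have := h.1 x hx
    norm_num
    exact this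
  · obtain ⟨x, hx⟩ := h.2 y
    refine ⟨4, x, ?_⟩
    norm_num
    exact hx

/-- `L₀^ε(ℤ[π]) ⊗ R` is finitely generated if and only if `L₀^ε(ℝ[π]) ⊗ R` is. -/
theorem finite_real (R : Type) [CommRing R] [Module.Flat ℤ R] (h2 : IsUnit (2 : R))
    (π : Type u) [Group π] (w : π →* ℤˣ) (ε : ℤˣ) :
    Module.Finite R (R ⊗[ℤ] L0 (GR ℤ π w) ε) ↔ Module.Finite R (R ⊗[ℤ] L0 (GR ℝ π w) ε) :=
  finite_iff R h2 (twoIso_co π w ε)

end Pool.Agent.H96.CX
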